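import Pool.Agent.K1H22.DF.Stm

/-! S_BALL implies S_FEW3. -/

set_option autoImplicit false

namespace Pool.Agent.K1H38.DF

open Pool.Agent.K1H22.DF Finset

/-- the thresholds -/
def mm (k D : ℕ) : ℕ → ℕ
  | 0 => 1
  | (i + 1) => (D + 1) ^ 2 * mm k D i + k + (1 + D) ^ 3 + 1

section

variable {V : Type} [Fintype V] [DecidableEq V] (G : SimpleGraph V) [DecidableRel G.Adj]

lemma mem_hub (D : ℕ) (v : V) : v ∈ hub G D ↔ D ≤ G.degree v := by simp [hub]

lemma mem_hn (D : ℕ) (v x : V) : x ∈ hn G D v ↔ G.Adj v x ∧ x ∈ hub G D := by simp [hn]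

lemma ball_mono (D : ℕ) (u : V) (j : ℕ) : ball G D u j ⊆ ball G D u (j + 1) := by
  intro x hx
  rw [ball]
  exact mem_union_left _ hx

lemma ball_step (D : ℕ) (u : V) (j : ℕ) {x y : V} (hx : x ∈ ball G D u j) (hxy : G.Adj x y)
    (hy : y ∉ hub G D) : y ∈ ball G D u (j + 1) := by
  rw [ball]
  refine mem_union_right _ ?_
  rw [mem_biUnion]
  exact ⟨x, hx, by simp [hxy, hy]⟩

/-- the route to a far vertex passes through a hub -/
lemma route (D k : ℕ) (hA : AdmR 3 k G) (u : V) (S : Finset V) (hS : S.card = k - 1)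
    (huS : u ∉ S) (hnS : hn G D u ⊆ S) (w : V) (hw : w ∉ hub G D) (hwS : w ∉ S)
    (hwb : w ∉ ball G D u 3) :
    ∃ x ∈ (ball G D u 1).biUnion (hn G D), x ∉ S ∧ x ∈ hn G D w := by
  have b0 : u ∈ ball G D u 0 := by simp [ball]
  have m01 := ball_mono G D u 0
  have m12 := ball_mono G D u 1
  have m23 := ball_mono G D u 2
  rcases hA S hS u w huS hwS with h | ⟨x1, h1, a1, h⟩
  · exact absurd (m23 (m12 (m01 (h ▸ b0)))) hwb
  have n1 : x1 ∉ hub G D := fun hh => h1 (hnS ((mem_hn G D u x1).2 ⟨a1, hh⟩))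
  have b1 : x1 ∈ ball G D u 1 := ball_step G D u 0 b0 a1 n1
  rcases h with h | ⟨x2, h2, a2, h⟩
  · exact absurd (m23 (m12 (h ▸ b1))) hwb
  rcases h with h | ⟨x3, h3, a3, h⟩
  · subst h
    exact absurd (m23 (ball_step G D u 1 b1 a2 hw)) hwb
  have h' : x3 = w := h
  subst h'
  by_cases n2 : x2 ∈ hub G D
  · refine ⟨x2, ?_, h2, ?_⟩
    · rw [mem_biUnion]
      exact ⟨x1, b1, (mem_hn G D x1 x2).2 ⟨a2, n2⟩⟩
    · exact (mem_hn G D x3 x2).2 ⟨a3.symm, n2⟩
  · exact absurd (ball_step G D u 2 (ball_step G D u 1 b1 a2 n2) a3 hw) hwb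

/-- the low vertices -/
abbrev low (D k : ℕ) : Finset V := univ.filter (fun v => v ∉ hub G D ∧ (hn G D v).card < k)

lemma step (hB : S_BALL) (D k : ℕ) (hA : AdmR 3 k G) (hk : 1 ≤ k)
    (hV : k ≤ Fintype.card V) (M : ℕ) (T : Finset V)
    (hT : (D + 1) ^ 2 * M + k + (1 + D) ^ 3 + 1 ≤ ((low G D k).filter (fun w => T ⊆ hn G D w)).card) :
    ∃ h, h ∉ T ∧ M ≤ ((low G D k).filter (fun w => insert h T ⊆ hn G D w)).card := by
  set LT := (low G D k).filter (fun w => T ⊆ hn G D w) with hLT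
  have hne : LT.Nonempty := by
    rw [← card_pos]; omega
  obtain ⟨u, hu⟩ := hne
  rw [hLT, mem_filter, mem_filter] at hu
  obtain ⟨⟨-, hu1, hu2⟩, hu3⟩ := hu
  have huu : hn G D u ⊆ univ.erase u := by
    intro x hx
    rw [mem_hn] at hx
    rw [mem_erase]
    exact ⟨fun h => G.irrefl (h ▸ hx.1), mem_univ _⟩
  obtain ⟨S, hS1, hS2, hS3⟩ := Finset.exists_subsuperset_card_eq huu
    (show (hn G D u).card ≤ k - 1 by omega)
    (by rw [card_erase_of_mem (mem_univ u), card_univ]; omega)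
  have huS : u ∉ S := fun h => by
    have := hS2 h
    simp at this
  set Du := (ball G D u 1).biUnion (hn G D) with hDu
  have hDc : Du.card ≤ (1 + D) * D := by
    refine (card_biUnion_le_card_mul _ _ D ?_).trans ?_
    · intro x hx
      have hx' := (hB V G D u 1 hu1).1 x hx
      rw [mem_hub] at hx'
      have : (hn G D x).card ≤ G.degree x := by
        rw [← G.card_neighborFinset_eq_degree]
        exact card_le_card (filter_subset _ _)
      omega
    · refine Nat.mul_le_mul_right _ ?_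
      have := (hB V G D u 1 hu1).2
      simpa using this
  have hb3 : (ball G D u 3).card ≤ (1 + D) ^ 3 := (hB V G D u 3 hu1).2
  by_contra hcon
  push Not at hcon
  have hsub : LT \ (S ∪ ball G D u 3) ⊆
      (Du \ T).biUnion (fun h => (low G D k).filter (fun w => insert h T ⊆ hn G D w)) := by
    intro w hw
    rw [mem_sdiff, hLT, mem_filter] at hw
    obtain ⟨⟨hw1, hw2⟩, hw3⟩ := hw
    rw [mem_union, not_or] at hw3
    have hw4 := (mem_filter.1 hw1).2
    obtain ⟨x, hx1, hx2, hx3⟩ := route G D k hA u S hS3 huS hS1 w hw4.1 hw3.1 hw3.2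
    rw [mem_biUnion]
    refine ⟨x, ?_, ?_⟩
    · rw [mem_sdiff]
      exact ⟨hx1, fun h => hx2 (hS1 (hu3 h))⟩
    · rw [mem_filter]
      exact ⟨hw1, insert_subset hx3 hw2⟩
  have h1 : (LT \ (S ∪ ball G D u 3)).card ≤ (1 + D) * D * M := by
    refine (card_le_card hsub).trans ((card_biUnion_le_card_mul _ _ M ?_).trans ?_)
    · intro h hh
      rw [mem_sdiff] at hh
      exact (hcon h hh.2).le
    · exact Nat.mul_le_mul_right _ ((card_le_card sdiff_subset).trans hDc)
  have h2 : LT.card ≤ (LT \ (S ∪ ball G D u 3)).card + (S ∪ ball G D u 3).card := by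
    have := le_card_sdiff (S ∪ ball G D u 3) LT
    omega
  have h3 : (S ∪ ball G D u 3).card ≤ (k - 1) + (1 + D) ^ 3 := by
    refine (card_union_le _ _).trans ?_
    omega
  have h4 : (1 + D) * D * M ≤ (D + 1) ^ 2 * M := by
    refine Nat.mul_le_mul_right _ ?_
    nlinarith
  omega

end

theorem t_FEW3 (hB : S_BALL) : S_FEW3 := by
  intro k D hk
  refine ⟨mm k D k + k, ?_⟩
  intro V _ _ G _ hA
  by_contra hcon
  push Not at hcon
  have hcon' : mm k D k + k < (low G D k).card := hcon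
  have hV : k ≤ Fintype.card V := by
    have := card_le_univ (low G D k)
    omega
  have key : ∀ i, i ≤ k → ∃ T : Finset V, T.card = i ∧
      mm k D (k - i) ≤ ((low G D k).filter (fun w => T ⊆ hn G D w)).card := by
    intro i
    induction i with
    | zero =>
      intro _
      refine ⟨∅, rfl, ?_⟩
      simp only [empty_subset, filter_true, Nat.sub_zero]
      omega
    | succ i ih =>
      intro hi
      obtain ⟨T, hT1, hT2⟩ := ih (by omega)
      have e : k - i = (k - (i + 1)) + 1 := by omega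
      rw [e, mm] at hT2
      obtain ⟨h, h1, h2⟩ := step G hB D k hA hk hV _ T hT2
      exact ⟨insert h T, by rw [card_insert_of_notMem h1, hT1], h2⟩
  obtain ⟨T, hT1, hT2⟩ := key k le_rfl
  rw [Nat.sub_self, mm] at hT2
  obtain ⟨w, hw⟩ := card_pos.1 (show 0 < _ from hT2)
  rw [mem_filter, mem_filter] at hw
  have := card_le_card hw.2
  omega

end Pool.Agent.K1H38.DF
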